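import Pool.Agent.N116.EW.Sep
import Pool.Agent.H973R4.InwardF
import Pool.Agent.TH291.NW.Low3

/-!
Project EW (helper116), task EW13 (helper196): the inward inequality in general domains.

Adapted from `Pool/Agent/H12R2/Sep/Inward.lean` and `Pool/Agent/TH291/NW/Low3.lean`.
-/

set_option autoImplicit false
set_option maxHeartbeats 2000000

namespace H12S

open H974 Finset

/-- The inward inequality in general domains, from the exterior exit lemma and the inequality for one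
cell. -/
theorem inward_ofG (κ : ℝ)
    (hext : ∃ C c0 : ℝ, 0 < C ∧ 0 < c0 ∧ ∀ (q : ℝ) (n : ℕ),
    Win q κ n → ∀ (c : ℤ × ℤ) (s r ρ1 ρ2 : ℕ), 1 ≤ r → 8 * r ≤ ρ1 → 64 * ρ1 ≤ ρ2 → 64 * ρ2 ≤ s →
      s ≤ n → ∀ (S : Finset Edg) (I J : Set Vtx), blk c (3 * s) ⊆ S → FarS (I ∪ J) c (3 * s) →
      PQ q S (fun F => BPv I J (boI c s) ↑F) ≤
        (∑ d : Dir, ∑ d' : Dir, ∑ k ∈ Icc (-(s / r : ℕ) : ℤ) (s / r : ℕ),
          ∑ k' ∈ Icc (-(s / r : ℕ) : ℤ) (s / r : ℕ),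
            PQ q S (fun F => ESev I J c s r ρ1 ρ2 d k d' k' ((↑F : Set Edg) \ ↑(boI c s)))) +
        C * (((ρ2:ℝ) / s) ^ c0 + ((s:ℝ) / ρ1) * ((ρ1:ℝ) / ρ2) ^ (1 + c0) +
          ((s:ℝ) / r) * ((r:ℝ) / ρ1) ^ (1 + c0)) *
          PQ q S (fun F => BPv I J (blk c (3 * s)) ↑F))
    (hin : ∀ (L M1 M2 B P1 P2 : ℕ) (C1 δ : ℝ), 0 < C1 → 0 < δ →
    ∃ (Mr : ℕ) (c : ℝ), 1 ≤ Mr ∧ 0 < c ∧
    ∀ (q : ℝ) (n : ℕ), Win q κ n → ∀ (r m s : ℕ),
      InD L M1 M2 B P1 P2 r m s (0, 0) (0, 0) → Mr ≤ r → s ≤ n →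
      a4 q (m / 8) ≤ C1 * a4 q (4 * L * m) →
      ∀ (σ1 σ2 : Bool) (k1 k2 : ℤ), |2 * k1| ≤ L * M2 + 1 → |2 * k2| ≤ L * M2 + 1 →
      (m:ℝ) ^ 2 * a4 q (4 * L * m) ≤ C1 * TS q L m r (m / M1) σ1 k1 σ2 k2 →
      ∀ (c0 : ℤ × ℤ) (S : Finset Edg) (I J I' J' : Set Vtx), blk c0 (3 * s) ⊆ S →
      DomD S I J I' J' → FarS (I ∪ J) c0 (3 * s) → FarS (I' ∪ J') c0 (3 * s + 1) →
      ∀ (d : Dir) (k : ℤ) (d' : Dir) (k' : ℤ),
      c * (PQ q S (fun F => ESev I J c0 s r (P1 * r) (P2 * r) d k d' k'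
            ((↑F : Set Edg) \ ↑(boI c0 s))) -
          δ * PQ q S (fun F => BPv I J (blk c0 (3 * s)) ↑F)) * ((m:ℝ) ^ 2 * a4 q (4 * L * m)) ≤
        ∑ e ∈ blk c0 s, PQ q S (fun F => Pv I J e ↑F))
    (δ : ℝ) (hδ : 0 < δ) : ∃ t M20 : ℕ, 1 ≤ t ∧
    ∀ (L M1 M2 : ℕ), 2 ≤ L → 64 ≤ M1 → 8 * M1 ≤ M2 → M20 ≤ M2 → ∀ C1 : ℝ, 0 < C1 →
    ∃ (Mr : ℕ) (C : ℝ), 1 ≤ Mr ∧ 0 < C ∧ ∀ (q : ℝ) (n : ℕ), Win q κ n → ∀ (r m s : ℕ), Mr ≤ r →
      m = M2 * r → s = 256 * t * L * m → s ≤ n → a4 q (m / 8) ≤ C1 * a4 q (4 * L * m) →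
      ∀ (σ1 σ2 : Bool) (k1 k2 : ℤ), |2 * k1| ≤ L * M2 + 1 → |2 * k2| ≤ L * M2 + 1 →
      (m:ℝ) ^ 2 * a4 q (4 * L * m) ≤ C1 * TS q L m r (m / M1) σ1 k1 σ2 k2 →
      ∀ (S : Finset Edg) (I J I' J' : Set Vtx) (p : ℤ × ℤ), blk p (4 * s) ⊆ S →
      DomD S I J I' J' → FarS (I ∪ J) p (4 * s) → FarS (I' ∪ J') p (4 * s) →
      (PQ q S (fun F => BPv I J (blk p (s - 1)) ↑F) -
        δ * PQ q S (fun F => BPv I J (blk p (3 * s)) ↑F)) *
          ((m:ℝ) ^ 2 * a4 q (4 * L * m)) ≤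
        C * ∑ e ∈ blk p s, PQ q S (fun F => Pv I J e ↑F) := by
  classical
  obtain ⟨Ce, c0, hCe, hc0, hext⟩ := hext
  obtain ⟨t3, ht3, H3'⟩ := IN_small (K := Ce) hc0 (by positivity : (0:ℝ) < δ / 6)
  have H3 := H3' t3 le_rfl
  obtain ⟨t2, ht2, H2'⟩ := IN_small (K := Ce * t3) hc0 (by positivity : (0:ℝ) < δ / 6)
  have H2 := H2' t2 le_rfl
  obtain ⟨M20, hM20, H1⟩ := IN_small (K := Ce * t2 * t3) hc0 (by positivity : (0:ℝ) < δ / 6)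
  refine ⟨t2 * t3, M20, Nat.mul_pos (by omega) (by omega), ?_⟩
  intro L M1 M2 hL hM1 hM2 hM C1 hC1
  set P1 : ℕ := 256 * L * M2 with hP1
  set P2 : ℕ := t2 * P1 with hP2
  set B : ℕ := t3 * P2 with hB
  have hM2pos : 1 ≤ M2 := by omega
  have hLM : 1 ≤ L * M2 := Nat.mul_pos (by omega) hM2pos
  have hP1pos : 256 ≤ P1 := by
    rw [hP1, mul_assoc]; omega
  have hP2pos : 64 * P1 ≤ P2 := Nat.mul_le_mul_right _ ht2
  have hBpos : 64 * P2 ≤ B := Nat.mul_le_mul_right _ ht3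
  set num : ℝ := 16 * (2 * (B:ℝ) + 1) ^ 2 with hnum
  have hnum0 : 0 < num := by positivity
  obtain ⟨Mr, c, hMr, hc, hin⟩ := hin L M1 M2 B P1 P2 C1 (δ / (2 * num)) hC1 (by positivity)
  refine ⟨Mr, num / c, hMr, by positivity, ?_⟩
  intro q n hw r m s hr hm hs hsn ha4 σ1 σ2 k1 k2 hk1 hk2 hTS S I J I' J' p hblk4 hdom hfar4 hfar4'
  have hr1 : 1 ≤ r := hMr.trans hr
  have hsB : s = B * r := by
    rw [hs, hm, hB, hP2, hP1]; ring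
  have hs1 : 1 ≤ s := by
    rw [hsB]; exact Nat.mul_pos (by omega) hr1
  have hsr : s / r = B := by
    rw [hsB]; exact Nat.mul_div_cancel _ hr1
  have hInD : InD L M1 M2 B P1 P2 r m s (0, 0) (0, 0) := by
    refine ⟨hL, hM1, hM2, ?_, hP2pos, hBpos, hr1, hm, hsB, by simp, by simp, ?_, ?_⟩
    · rw [hP1]; exact le_of_eq (by ring)
    · have h1 : P1 = 256 * (L * M2) := by rw [hP1]; ring
      have h2 : ((B:ℕ):ℤ) ≥ 64 * (64 * (256 * (L * M2 : ℕ))) := by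
        have : B ≥ 64 * (64 * (256 * (L * M2))) := by rw [← h1]; omega
        exact_mod_cast this
      push_cast at h2
      have h3 : (1:ℤ) ≤ (L:ℤ) * M2 := by exact_mod_cast hLM
      simp only [abs_zero, zero_add]
      nlinarith
    · have h1 : P1 = 256 * (L * M2) := by rw [hP1]; ring
      have h2 : ((B:ℕ):ℤ) ≥ 64 * (64 * (256 * (L * M2 : ℕ))) := by
        have : B ≥ 64 * (64 * (256 * (L * M2))) := by rw [← h1]; omega
        exact_mod_cast this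
      push_cast at h2
      have h3 : (1:ℤ) ≤ (L:ℤ) * M2 := by exact_mod_cast hLM
      simp only [abs_zero, zero_add]
      nlinarith
  have hblk : blk p (3 * s) ⊆ S := by
    refine subset_trans ?_ hblk4
    unfold blk
    exact RE_subset (by push_cast; omega) (by push_cast; omega) (by push_cast; omega)
      (by push_cast; omega)
  have hfar : FarS (I ∪ J) p (3 * s) := SY_far_mono (by omega) hfar4
  have hfar' : FarS (I' ∪ J') p (3 * s + 1) := SY_far_mono (by omega) hfar4'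
  set A : ℝ := (m:ℝ) ^ 2 * a4 q (4 * L * m) with hA
  have hA0 : 0 ≤ A := by
    refine mul_nonneg (by positivity) ?_
    exact add_nonneg (Pr_nonneg hw.ok _ _) (Pr_nonneg hw.ok _ _)
  set Pm : ℝ := PQ q S (fun F => BPv I J (blk p (3 * s)) ↑F) with hPm
  have hPm0 : 0 ≤ Pm := Pr_nonneg hw.ok _ _
  set Es : ℝ := ∑ e ∈ blk p s, PQ q S (fun F => Pv I J e ↑F) with hEs
  set f : Dir → Dir → ℤ → ℤ → ℝ := fun d d' k k' =>
    PQ q S (fun F => ESev I J p s r (P1 * r) (P2 * r) d k d' k' ((↑F : Set Edg) \ ↑(boI p s)))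
    with hf
  have h1 : ∀ d d' k k', f d d' k k' * A ≤ Es / c + δ / (2 * num) * Pm * A := by
    intro d d' k k'
    have := hin q n hw r m s hInD hr hsn ha4 σ1 σ2 k1 k2 hk1 hk2 hTS p S I J I' J' hblk
      hdom hfar hfar' d k d' k'
    have h2 : (f d d' k k' - δ / (2 * num) * Pm) * A ≤ Es / c := by
      rw [le_div_iff₀ hc]
      calc _ = c * (f d d' k k' - δ / (2 * num) * Pm) * A := by ring
        _ ≤ Es := this
    linarith [h2, sub_mul (f d d' k k') (δ / (2 * num) * Pm) A]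
  have h2 := hext q n hw p s r (P1 * r) (P2 * r) hr1 (Nat.mul_le_mul_right _ (by omega))
    (by rw [← mul_assoc]; exact Nat.mul_le_mul_right _ hP2pos)
    (by rw [hsB, ← mul_assoc]; exact Nat.mul_le_mul_right _ hBpos) hsn S I J hblk hfar
  rw [hsr] at h2
  have h3 : (∑ d : Dir, ∑ d' : Dir, ∑ k ∈ Icc (-(B : ℕ) : ℤ) (B : ℕ),
      ∑ k' ∈ Icc (-(B : ℕ) : ℤ) (B : ℕ), f d d' k k') * A ≤
      num * (Es / c + δ / (2 * num) * Pm * A) := by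
    have hcard : (Icc (-(B : ℕ) : ℤ) (B : ℕ)).card = 2 * B + 1 := by
      rw [Int.card_Icc]; omega
    simp only [Finset.sum_mul]
    calc _ ≤ ∑ d : Dir, ∑ d' : Dir, ∑ k ∈ Icc (-(B : ℕ) : ℤ) (B : ℕ),
          ∑ k' ∈ Icc (-(B : ℕ) : ℤ) (B : ℕ), (Es / c + δ / (2 * num) * Pm * A) :=
          Finset.sum_le_sum fun d _ => Finset.sum_le_sum fun d' _ => Finset.sum_le_sum fun k _ =>
            Finset.sum_le_sum fun k' _ => h1 d d' k k'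
      _ = num * (Es / c + δ / (2 * num) * Pm * A) := by
          simp only [Finset.sum_const, Finset.card_univ, IN_card_Dir, hcard, nsmul_eq_mul]
          push_cast
          rw [hnum]
          ring
  have h4 : PQ q S (fun F => BPv I J (blk p (s - 1)) ↑F) ≤
      PQ q S (fun F => BPv I J (boI p s) ↑F) :=
    Pr_mono hw.ok fun F _ hF => IN_BPv_mono (IN_sub hs1) hF
  have hrR : (0:ℝ) < r := by exact_mod_cast hr1
  have hP1R : (0:ℝ) < P1 := by exact_mod_cast (by omega : 0 < P1)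
  have ht2R : (0:ℝ) < t2 := by exact_mod_cast (by omega : 0 < t2)
  have ht3R : (0:ℝ) < t3 := by exact_mod_cast (by omega : 0 < t3)
  have hM2R : (0:ℝ) < M2 := by exact_mod_cast (by omega : 0 < M2)
  have hP2e : (P2:ℝ) = t2 * P1 := by rw [hP2]; push_cast; rfl
  have hBe : (B:ℝ) = t3 * (t2 * P1) := by rw [hB]; push_cast; rw [hP2e]
  have hse : (s:ℝ) = t3 * (t2 * P1) * r := by rw [hsB]; push_cast; rw [hBe]
  have e1 : (((P2 * r : ℕ):ℝ) / s) = 1 / t3 := by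
    rw [hse]; push_cast; rw [hP2e]; field_simp
  have e2 : ((s:ℝ) / ((P1 * r : ℕ):ℝ)) = t2 * t3 := by
    rw [hse]; push_cast; field_simp
  have e3 : (((P1 * r : ℕ):ℝ) / ((P2 * r : ℕ):ℝ)) = 1 / t2 := by
    push_cast; rw [hP2e]; field_simp
  have e4 : ((s:ℝ) / r) = t3 * (t2 * P1) := by
    rw [hse]; field_simp
  have e5 : ((r:ℝ) / ((P1 * r : ℕ):ℝ)) = 1 / P1 := by
    push_cast; field_simp
  have h5 : Ce * ((((P2 * r : ℕ):ℝ) / s) ^ c0 +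
      ((s:ℝ) / ((P1 * r : ℕ):ℝ)) * (((P1 * r : ℕ):ℝ) / ((P2 * r : ℕ):ℝ)) ^ (1 + c0) +
      ((s:ℝ) / r) * ((r:ℝ) / ((P1 * r : ℕ):ℝ)) ^ (1 + c0)) ≤ δ / 2 := by
    rw [e1, e2, e3, e4, e5, Real.rpow_add (by positivity), Real.rpow_add (by positivity),
      Real.rpow_one, Real.rpow_one]
    have g1 : (1 / (P1:ℝ)) ^ c0 ≤ (1 / (M2:ℝ)) ^ c0 := by
      apply Real.rpow_le_rpow (by positivity) _ hc0.le
      apply one_div_le_one_div_of_le hM2R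
      have : M2 ≤ P1 := by
        rw [hP1]; nlinarith
      exact_mod_cast this
    have g2 := H1 M2 hM
    have g3 : Ce * t2 * t3 * (1 / (P1:ℝ)) ^ c0 ≤ Ce * t2 * t3 * (1 / (M2:ℝ)) ^ c0 :=
      mul_le_mul_of_nonneg_left g1 (by positivity)
    have g4 : Ce * ((1 / (t3:ℝ)) ^ c0 + (t2:ℝ) * t3 * (1 / (t2:ℝ) * (1 / (t2:ℝ)) ^ c0) +
        (t3:ℝ) * (t2 * P1) * (1 / (P1:ℝ) * (1 / (P1:ℝ)) ^ c0)) =
        Ce * (1 / (t3:ℝ)) ^ c0 + Ce * t3 * (1 / (t2:ℝ)) ^ c0 +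
          Ce * t2 * t3 * (1 / (P1:ℝ)) ^ c0 := by
      field_simp
    rw [g4]
    linarith
  have h6 : PQ q S (fun F => BPv I J (blk p (s - 1)) ↑F) ≤
      (∑ d : Dir, ∑ d' : Dir, ∑ k ∈ Icc (-(B : ℕ) : ℤ) (B : ℕ),
      ∑ k' ∈ Icc (-(B : ℕ) : ℤ) (B : ℕ), f d d' k k') + δ / 2 * Pm := by
    refine (h4.trans h2).trans ?_
    gcongr
  have h7 : (PQ q S (fun F => BPv I J (blk p (s - 1)) ↑F) - δ * Pm) * A ≤
      ((∑ d : Dir, ∑ d' : Dir, ∑ k ∈ Icc (-(B : ℕ) : ℤ) (B : ℕ),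
      ∑ k' ∈ Icc (-(B : ℕ) : ℤ) (B : ℕ), f d d' k k') - δ / 2 * Pm) * A :=
    mul_le_mul_of_nonneg_right (by linarith) hA0
  have h8 : num * (Es / c + δ / (2 * num) * Pm * A) = num / c * Es + δ / 2 * Pm * A := by
    field_simp
  rw [h8] at h3
  rw [sub_mul (∑ d : Dir, ∑ d' : Dir, ∑ k ∈ Icc (-(B : ℕ) : ℤ) (B : ℕ),
      ∑ k' ∈ Icc (-(B : ℕ) : ℤ) (B : ℕ), f d d' k k')] at h7
  linarith


/-- The inward inequality in general domains. -/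
theorem inward_closedG (κ : ℝ) (hκ : 0 < κ) (δ : ℝ) (hδ : 0 < δ) : ∃ t M20 : ℕ, 1 ≤ t ∧
    ∀ (L M1 M2 : ℕ), 2 ≤ L → 64 ≤ M1 → 8 * M1 ≤ M2 → M20 ≤ M2 → ∀ C1 : ℝ, 0 < C1 →
    ∃ (Mr : ℕ) (C : ℝ), 1 ≤ Mr ∧ 0 < C ∧ ∀ (q : ℝ) (n : ℕ), Win q κ n → ∀ (r m s : ℕ), Mr ≤ r →
      m = M2 * r → s = 256 * t * L * m → s ≤ n → a4 q (m / 8) ≤ C1 * a4 q (4 * L * m) →
      ∀ (σ1 σ2 : Bool) (k1 k2 : ℤ), |2 * k1| ≤ L * M2 + 1 → |2 * k2| ≤ L * M2 + 1 →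
      (m:ℝ) ^ 2 * a4 q (4 * L * m) ≤ C1 * TS q L m r (m / M1) σ1 k1 σ2 k2 →
      ∀ (S : Finset Edg) (I J I' J' : Set Vtx) (p : ℤ × ℤ), blk p (4 * s) ⊆ S →
      DomD S I J I' J' → FarS (I ∪ J) p (4 * s) → FarS (I' ∪ J') p (4 * s) →
      (PQ q S (fun F => BPv I J (blk p (s - 1)) ↑F) -
        δ * PQ q S (fun F => BPv I J (blk p (3 * s)) ↑F)) *
          ((m:ℝ) ^ 2 * a4 q (4 * L * m)) ≤
        C * ∑ e ∈ blk p s, PQ q S (fun F => Pv I J e ↑F) :=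
  inward_ofG κ (ext_prob_of ext_det_closed κ hκ)
    (fun L M1 M2 B P1 P2 C1 δ hC1 hδ => in_all_of in_top_closed κ hκ L M1 M2 B P1 P2 C1 δ hC1 hδ)
    δ hδ

end H12S

namespace Pool.Agent.N196.EW

open H974 H12S H973N Finset Pool.Agent.W424.NC TH291.NW

/-- The inward inequality at all scales of the window. -/
theorem inward_scaleG {κ b c C : ℝ} (hκ : 0 < κ) (hb : 0 < b) (hc : 0 < c) (hN : NearP b c C)
    (hWn : ∀ n : ℕ, 1 ≤ n → ∀ q : ℝ, |q - 1/2| ≤ b * (n:ℝ) ^ (-(3/4 : ℝ)) → Win q κ n)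
    {δ : ℝ} (hδ : 0 < δ) : ∃ (B Mr : ℕ) (Ci : ℝ), 2 ≤ B ∧ 1 ≤ Mr ∧ 0 < Ci ∧
      ∀ n : ℕ, 1 ≤ n → ∀ q : ℝ, |q - 1/2| ≤ b * (n:ℝ) ^ (-(3/4 : ℝ)) →
      ∀ r : ℕ, Mr ≤ r → B * r ≤ n → ∀ (S : Finset Edg) (I J I' J' : Set Vtx) (p : ℤ × ℤ),
        blk p (4 * (B * r)) ⊆ S → DomD S I J I' J' → FarS (I ∪ J) p (4 * (B * r)) →
        FarS (I' ∪ J') p (4 * (B * r)) →
        (PQ q S (fun F => BPv I J (blk p (B * r - 1)) ↑F) - δ) * (r:ℝ) ^ (3/4 : ℝ) ≤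
          Ci * ∑ e ∈ S, PQ q S (fun F => Pv I J e ↑F) := by
  have hcC := c_le_C hb hN
  have hC : 0 < C := by linarith
  obtain ⟨lg, hlg⟩ : ∃ lg : ℝ, lg = Real.log (C / c) := ⟨_, rfl⟩
  have hCc1 : 1 ≤ C / c := by rw [le_div_iff₀ hc]; linarith
  have hlg0 : 0 ≤ lg := by rw [hlg]; exact Real.log_nonneg hCc1
  obtain ⟨t, M20, ht, hin⟩ := inward_closedG κ hκ δ hδ
  obtain ⟨L, M1, M2, C1, hL, hM1, hM2, hM20, hC1, hkey⟩ :=
    key_scale exit3 κ hκ (5/4 + lg) (by linarith) M20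
  obtain ⟨C1', hC1'⟩ : ∃ C1' : ℝ, C1' = max C1 ((192 * (L:ℝ)) ^ (5/4 + lg)) := ⟨_, rfl⟩
  have hC1'0 : 0 < C1' := by rw [hC1']; exact lt_of_lt_of_le hC1 (le_max_left _ _)
  obtain ⟨Mr, Cin, hMr, hCin, hin⟩ := hin L M1 M2 hL hM1 hM2 hM20 C1' hC1'0
  have hLr : (2:ℝ) ≤ L := by exact_mod_cast hL
  have hL0 : (0:ℝ) < L := by linarith
  obtain ⟨B, hB⟩ : ∃ B : ℕ, B = 256 * t * L * M2 := ⟨_, rfl⟩
  have hBpos : 2 ≤ B := by
    have h1 : 0 < t * L * M2 := by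
      have : 0 < t := ht
      have : 0 < L := by omega
      have : 0 < M2 := by omega
      positivity
    have h2 : B = 256 * (t * L * M2) := by rw [hB]; ring
    omega
  refine ⟨B, Mr, Cin / (c * (4 * (L:ℝ)) ^ (-(5/4 : ℝ))), hBpos, hMr, by positivity, ?_⟩
  intro n hn q hq r hr hrn S I J I' J' p m1 m2 m3 m4
  have hW := hWn n hn q hq
  have h0 : 0 ≤ q := by linarith [hW.lo]
  have h1 : q ≤ 1 := by linarith [hW.hi]
  have hr1 : 1 ≤ r := hMr.trans hr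
  obtain ⟨s, hs⟩ : ∃ s : ℕ, s = B * r := ⟨_, rfl⟩
  rw [← hs] at hrn m1 m3 m4 ⊢
  have hs2 : s = 256 * t * L * (M2 * r) := by rw [hs, hB]; ring
  have h4 : 4 * L * (M2 * r) ≤ n := by
    refine le_trans ?_ hrn
    rw [hs2]
    apply Nat.mul_le_mul_right
    apply Nat.mul_le_mul_right
    omega
  have hM2r1 : 8 ≤ M2 * r := by
    calc 8 = 8 * 1 := rfl
      _ ≤ M2 * r := Nat.mul_le_mul (by omega) hr1
  have hk41 : 1 ≤ 4 * L * (M2 * r) := by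
    have : 0 < 4 * L * (M2 * r) := Nat.mul_pos (by omega) (by omega)
    exact this
  have hM2n : M2 * r ≤ n := by
    refine le_trans ?_ h4
    exact Nat.le_mul_of_pos_left _ (by omega)
  -- regularity
  have hreg : a4 q ((M2 * r) / 8) ≤ (192 * (L:ℝ)) ^ (5/4 + lg) * a4 q (4 * L * (M2 * r)) := by
    have i1 := (hN n hn q hq ((M2 * r) / 8) (by omega) (by omega)).2
    have i2 := (hN n hn q hq (4 * L * (M2 * r)) hk41 h4).1
    have k1pos : (0:ℝ) < ((M2 * r / 8 : ℕ) : ℝ) := by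
      have : 0 < M2 * r / 8 := by omega
      exact_mod_cast this
    have k2pos : (0:ℝ) < ((4 * L * (M2 * r) : ℕ) : ℝ) := by exact_mod_cast hk41
    have i3 := pow_scale (x := ((M2 * r / 8 : ℕ) : ℝ)) (y := ((4 * L * (M2 * r) : ℕ) : ℝ))
      (G := 64 * L) k1pos k2pos (by positivity) (by
        have i4 : M2 * r ≤ 16 * (M2 * r / 8) := by omega
        have i5 : 4 * L * (M2 * r) ≤ 4 * L * (16 * (M2 * r / 8)) := Nat.mul_le_mul_left _ i4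
        have i6 : ((4 * L * (M2 * r) : ℕ) : ℝ) ≤ ((4 * L * (16 * (M2 * r / 8)) : ℕ) : ℝ) := by
          exact_mod_cast i5
        refine i6.trans (le_of_eq ?_)
        push_cast; ring)
    have hp2 : 0 < ((4 * L * (M2 * r) : ℕ) : ℝ) ^ (-(5/4 : ℝ)) := by positivity
    have i7 : C / c * (64 * (L:ℝ)) ^ (5/4 : ℝ) ≤ (192 * (L:ℝ)) ^ (5/4 + lg) := by
      rw [Real.rpow_add (by positivity), mul_comm]
      apply mul_le_mul _ _ (by positivity) (by positivity)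
      · exact Real.rpow_le_rpow (by positivity) (by linarith) (by norm_num)
      · have e : C / c = Real.exp 1 ^ lg := by
          rw [← Real.exp_mul, one_mul, hlg, Real.exp_log (by positivity)]
        rw [e]
        apply Real.rpow_le_rpow (Real.exp_pos _).le _ hlg0
        have := Real.exp_one_lt_d9
        linarith
    calc a4 q ((M2 * r) / 8) ≤ C * ((M2 * r / 8 : ℕ) : ℝ) ^ (-(5/4 : ℝ)) := i1
      _ ≤ C * ((64 * (L:ℝ)) ^ (5/4 : ℝ) * ((4 * L * (M2 * r) : ℕ) : ℝ) ^ (-(5/4 : ℝ))) :=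
          mul_le_mul_of_nonneg_left i3 hC.le
      _ = (C / c * (64 * (L:ℝ)) ^ (5/4 : ℝ)) *
          (c * ((4 * L * (M2 * r) : ℕ) : ℝ) ^ (-(5/4 : ℝ))) := by field_simp
      _ ≤ (192 * (L:ℝ)) ^ (5/4 + lg) * (c * ((4 * L * (M2 * r) : ℕ) : ℝ) ^ (-(5/4 : ℝ))) :=
          mul_le_mul_of_nonneg_right i7 (by positivity)
      _ ≤ _ := mul_le_mul_of_nonneg_left i2 (by positivity)
  have ha4 : 0 ≤ a4 q (4 * L * (M2 * r)) := a4_nonneg h0 h1 _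
  obtain ⟨σ1, k1, σ2, k2, hk1, hk2, hTS⟩ := hkey q n hW r (M2 * r) hr1 rfl h4 hreg
  have hTS0 : 0 ≤ TS q L (M2 * r) r ((M2 * r) / M1) σ1 k1 σ2 k2 :=
    Finset.sum_nonneg fun _ _ => Pr_nonneg (okq h0 h1) _ _
  have hmain := hin q n hW r (M2 * r) s hr rfl hs2 hrn
    (hreg.trans (mul_le_mul_of_nonneg_right (by rw [hC1']; exact le_max_right _ _) ha4))
    σ1 σ2 k1 k2 hk1 hk2
    (hTS.trans (mul_le_mul_of_nonneg_right (by rw [hC1']; exact le_max_left _ _) hTS0))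
    S I J I' J' p m1 m2 m3 m4
  obtain ⟨P, hP⟩ : ∃ P : ℝ, P = PQ q S
    (fun F => BPv I J (blk p (s - 1)) ↑F) := ⟨_, rfl⟩
  obtain ⟨P3, hP3⟩ : ∃ P3 : ℝ, P3 = PQ q S
    (fun F => BPv I J (blk p (3 * s)) ↑F) := ⟨_, rfl⟩
  rw [← hP, ← hP3] at hmain
  rw [← hP]
  have hP31 : P3 ≤ 1 := by rw [hP3]; exact Pr_le_one (okq h0 h1) _ _
  obtain ⟨Y, hY⟩ : ∃ Y : ℝ, Y = ((M2 * r : ℕ) : ℝ) ^ 2 * a4 q (4 * L * (M2 * r)) := ⟨_, rfl⟩
  rw [← hY] at hmain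
  have hY0 : 0 ≤ Y := by rw [hY]; exact mul_nonneg (by positivity) ha4
  -- the sum over the block
  have hsub : blk p s ⊆ S := by
    refine subset_trans ?_ m1
    unfold blk
    exact RE_subset (by push_cast; omega) (by push_cast; omega) (by push_cast; omega)
      (by push_cast; omega)
  obtain ⟨Sg, hSg⟩ : ∃ Sg : ℝ, Sg = ∑ e ∈ S, PQ q S
    (fun F => Pv I J e ↑F) := ⟨_, rfl⟩
  have hsum : ∑ e ∈ blk p s, PQ q S (fun F => Pv I J e ↑F) ≤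
      Sg := by
    rw [hSg]
    exact Finset.sum_le_sum_of_subset_of_nonneg hsub
      (fun _ _ _ => Pr_nonneg (okq h0 h1) _ _)
  have hSg0 : 0 ≤ Sg := by
    rw [hSg]
    exact Finset.sum_nonneg fun _ _ => Pr_nonneg (okq h0 h1) _ _
  have hfin : (P - δ) * Y ≤ Cin * Sg := by
    have e1 : (P - δ) * Y ≤ (P - δ * P3) * Y := by
      apply mul_le_mul_of_nonneg_right _ hY0
      have := mul_le_mul_of_nonneg_left hP31 hδ.le
      linarith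
    exact e1.trans (hmain.trans (mul_le_mul_of_nonneg_left hsum hCin.le))
  rw [← hSg]
  rcases le_or_gt P δ with hPδ | hPδ
  · have e1 : (P - δ) * (r:ℝ) ^ (3/4 : ℝ) ≤ 0 :=
      mul_nonpos_of_nonpos_of_nonneg (by linarith) (by positivity)
    exact e1.trans (by positivity)
  · -- the size of `Y`
    have hYlow : c * (4 * (L:ℝ)) ^ (-(5/4 : ℝ)) * (r:ℝ) ^ (3/4 : ℝ) ≤ Y := by
      obtain ⟨m, hm⟩ : ∃ m : ℝ, m = ((M2 * r : ℕ) : ℝ) := ⟨_, rfl⟩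
      have hmpos : 0 < m := by
        rw [hm]
        have : 0 < M2 * r := by omega
        exact_mod_cast this
      have hrm : (r:ℝ) ≤ m := by
        rw [hm]
        have : r ≤ M2 * r := Nat.le_mul_of_pos_left _ (by omega)
        exact_mod_cast this
      have i2 := (hN n hn q hq (4 * L * (M2 * r)) hk41 h4).1
      have i3 : ((4 * L * (M2 * r) : ℕ) : ℝ) = (4 * L) * m := by rw [hm]; push_cast; ring
      rw [i3, Real.mul_rpow (by positivity) hmpos.le] at i2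
      rw [hY, ← hm]
      calc c * (4 * (L:ℝ)) ^ (-(5/4 : ℝ)) * (r:ℝ) ^ (3/4 : ℝ)
          ≤ c * (4 * (L:ℝ)) ^ (-(5/4 : ℝ)) * m ^ (3/4 : ℝ) := by
            apply mul_le_mul_of_nonneg_left _ (by positivity)
            exact Real.rpow_le_rpow (Nat.cast_nonneg _) hrm (by norm_num)
        _ = m ^ 2 * (c * ((4 * (L:ℝ)) ^ (-(5/4 : ℝ)) * m ^ (-(5/4 : ℝ)))) := by
            rw [← m_sq hmpos]; ring
        _ ≤ _ := mul_le_mul_of_nonneg_left i2 (by positivity)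
    obtain ⟨v, hv⟩ : ∃ v : ℝ, v = c * (4 * (L:ℝ)) ^ (-(5/4 : ℝ)) := ⟨_, rfl⟩
    have hv0 : 0 < v := by rw [hv]; positivity
    rw [← hv] at hYlow ⊢
    have e2 : (P - δ) * (v * (r:ℝ) ^ (3/4 : ℝ)) ≤ Cin * Sg :=
      (mul_le_mul_of_nonneg_left hYlow (by linarith)).trans hfin
    rw [div_mul_eq_mul_div, le_div_iff₀ hv0]
    calc (P - δ) * (r:ℝ) ^ (3/4 : ℝ) * v = (P - δ) * (v * (r:ℝ) ^ (3/4 : ℝ)) := by ring
      _ ≤ _ := e2


end Pool.Agent.N196.EW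

namespace Pool.Agent.N116.EW

open H974 H12S H389NS H984N H984P H342P Finset

theorem inw : S_INW := by
  obtain ⟨κ, b, c0, C0, hκ, hb, hc0, hC0, hnear⟩ := Pool.Agent.W424.NC.nearS
  have hN : Pool.Agent.W424.NC.NearP b c0 C0 := fun n hn q hq => (hnear n hn q hq).2
  have hWn : ∀ n : ℕ, 1 ≤ n → ∀ q : ℝ, |q - 1/2| ≤ b * (n:ℝ) ^ (-(3/4 : ℝ)) →
      H12S.Win q κ n := fun n hn q hq => (hnear n hn q hq).1
  exact ⟨b, hb, fun δ hδ => Pool.Agent.N196.EW.inward_scaleG hκ hb hc0 hN hWn hδ⟩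

end Pool.Agent.N116.EW
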